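import Pool.Agent.Results.MP_e21d36_nt.ApproximationsOfAllNumbers
import Pool.Agent.X174.MasterTup

/-!
# Values of `e^(2πiτ)`, `π E₂`, `π² E₄`, `π³ E₆` at ALL simultaneous approximations of `n` points by algebraic points

For `n` points of the upper half-plane at once: for every `ω > 0` there is ONE set `E ⊂ ℂ^n` of Hausdorff dimension at most
`2 m (n - 1) / ω` such that for all `x ∈ H^n` outside `E`, all number fields `F ⊂ ℂ` of degree at most `m`, all `d` and `A` there
are `B` and `T₁` such that for all `T ≥ T₁` and ALL simultaneous approximations `τ ∈ F^n` of `x`, quotients of integers with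
conjugates at most `T`, with `|τ_l - x_l| ≤ T ^ (-ω)` for all `l`, the `4 n` numbers
`e^(2πi τ_l)`, `π E₂(τ_l)`, `π² E₄(τ_l)`, `π³ E₆(τ_l)`
satisfy no relation of degree at most `d` with coefficients which are polynomials of degree at most `d` in the
`u_lk(τ_l) / w_l(τ_l)` (for instance in the `τ_l` themselves) and in given complex numbers `ξ_i` (for instance `π`), with
coefficients in the integers of `F` with conjugates at most `T ^ A`, not even up to `T ^ (-B)`. For `n ≥ 2` exceptions are
unavoidable: `τ_2 = τ_1`, or points related by the modular group.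

The case `n = 1` (without the `u_lk / w_l`) is the result `ApproximationsOfAllNumbers`, from which the functions are taken.
-/

set_option autoImplicit false

open MeasureTheory NumberField

namespace Pool.Agent.Results.MP_e21d36_nt.SimultaneousApproximations

open Pool.Agent.X39.Near (Size)
open Pool.Agent.X174.NearTup (DependentT)
open ApproximationsOfAllNumbers (value)

/-- **Theorem.** Let `n ≥ 1`, `m` be natural numbers; for each `l < n` let `u_lk`, `w_l` be complex polynomials, `w_l` without
zeros in the upper half-plane; let `ξ_1, …, ξ_g` be complex numbers and `ω > 0`. There is a set `E ⊂ ℂ^n` of Hausdorff dimension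
at most `2 m (n - 1) / ω` such that for all `x` outside `E` whose coordinates are in the upper half-plane, all number fields `F`
of degree at most `m` with an embedding `ι` in `ℂ` and all `d`, `A` there are `B`, `T₁` such that for all `T ≥ T₁` and all
`t ∈ F^n`, quotients of integers with conjugates at most `T`, with `|ι t_l - x_l| ≤ T ^ (-ω)` for all `l`, the `4 n` numbers
`value (ι t_l)` are not dependent. -/
theorem result {n q g : ℕ} (hn : 1 ≤ n) (m : ℕ)
    (u : Fin n → Fin q → Polynomial ℂ) (w : Fin n → Polynomial ℂ) (hw : ∀ l, ∀ t : ℂ, 0 < t.im → (w l).eval t ≠ 0)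
    (ξ : Fin g → ℂ) (ω : ℝ) (hω : 0 < ω) :
    ∃ E : Set (Fin n → ℂ), dimH E ≤ ENNReal.ofReal (2 * m * ((n : ℝ) - 1) / ω) ∧
      ∀ x : Fin n → ℂ, (∀ l, 0 < (x l).im) → x ∉ E → ∀ (F : Type) [Field F] [NumberField F],
        Module.finrank ℚ F ≤ m → ∀ (ι : F →+* ℂ) (d A : ℕ), ∃ B T₁ : ℝ, ∀ T : ℝ, T₁ ≤ T → ∀ t : Fin n → F,
          (∀ l, Size F T (t l)) → (∀ l, ‖ι (t l) - x l‖ ≤ T ^ (-ω)) →
            ¬ DependentT (fun _ k z => value z k) u w ξ F ι d A B T t := by
  obtain ⟨E, h1, -, h2⟩ := Pool.Agent.X174.NearTup.masterTup hn m (fun _ => Pool.Agent.X39.Near.Eis.Hp)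
    (fun _ => Pool.Agent.Y776.AxJ.isOpen_H)
    (fun _ (k : Fin 4) z => Pool.Agent.X39.Near.Eis.evp z k)
    (fun _ k z hz => Pool.Agent.X39.Near.Eis.evp_an k z hz)
    (fun _ => Pool.Agent.X39.Near.Eis.evp_ind)
    u w (fun l t ht => hw l t ht) ξ hω
  exact ⟨E, h1, fun x hx => h2 x (fun l => hx l)⟩

end Pool.Agent.Results.MP_e21d36_nt.SimultaneousApproximations
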